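import Pool.Agent.H.MP_5be563_lc.VST.Decide
import Pool.Agent.H.MP_5be563_lc.PT.Main

/-!
# Vertex Steiner Tree on (claw, path)-free graphs

For every `t`, VERTEX STEINER TREE restricted to graphs without induced claw and without induced
path on `t` vertices is solvable in polynomial time.
-/

namespace Pool.Agent.Results.MP_5be563_lc.VSTPoly

open Pool.Agent.H.MP_5be563_lc.PT Pool.Agent.H.MP_5be563_lc.VST

/-- The code of an instance determines the instance. -/
theorem encode_injective : Function.Injective VSTInstance.encode := by
  classical
  intro x y h
  have hd : x.dat = y.dat := by rw [← parse_encode, ← parse_encode, h]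
  obtain ⟨n, G, w, wp, U, k⟩ := x
  obtain ⟨m, G', w', wp', U', k'⟩ := y
  have hn : n = m := by
    have := congrArg (fun d => d.1.length) hd
    simpa [VSTInstance.dat] using this
  subst hn
  have hq : ∀ q q' : ℚ, decide (q < 0) = decide (q' < 0) →
      Nat.bits q.num.natAbs = Nat.bits q'.num.natAbs → Nat.bits q.den = Nat.bits q'.den →
      q = q' := by
    intro q q' h1 h2 h3
    have e2 : q.num.natAbs = q'.num.natAbs := by
      have := congrArg bval h2
      simpa [bval_bits] using this
    have e3 : q.den = q'.den := by
      have := congrArg bval h3
      simpa [bval_bits] using this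
    have e1 : (q < 0) ↔ (q' < 0) := by simpa using h1
    rw [← Rat.num_neg, ← Rat.num_neg] at e1
    apply Rat.ext
    · omega
    · exact e3
  simp only [VSTInstance.dat, Prod.mk.injEq] at hd
  obtain ⟨h1, h2, h3⟩ := hd
  have hG : G = G' := by
    ext i j
    have h4 := List.map_inj_left.1 h1 i (List.mem_finRange i)
    have h5 := List.map_inj_left.1 h4 j (List.mem_finRange j)
    simpa using h5
  have hU : U = U' := by
    ext i
    have h4 := List.map_inj_left.1 h2 i (List.mem_finRange i)
    simpa using h4
  have h6 := List.append_inj_right' h3 rfl
  have h7 := List.append_inj_left' h3 rfl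
  have hk : k = k' := by
    simp only [List.cons.injEq, and_true] at h6
    exact hq k k' h6.1.1 h6.1.2 h6.2
  have hw : w = w' := by
    have key : ∀ L : List (Fin n),
        L.flatMap (fun i => [decide (w i < 0) :: Nat.bits (w i).num.natAbs,
          Nat.bits (w i).den]) =
        L.flatMap (fun i => [decide (w' i < 0) :: Nat.bits (w' i).num.natAbs,
          Nat.bits (w' i).den]) → ∀ i ∈ L, w i = w' i := by
      intro L
      induction L with
      | nil => intro _ i hi; simp at hi
      | cons a L ih =>
        intro h i hi
        simp only [List.flatMap_cons, List.cons_append, List.nil_append, List.cons.injEq] at h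
        rcases List.mem_cons.1 hi with rfl | hi
        · exact hq _ _ h.1.1 h.1.2 h.2.1
        · exact ih h.2.2 i hi
    funext i
    exact key _ h7 i (List.mem_finRange i)
  subst hG hU hk hw
  rfl

/-- **VERTEX STEINER TREE on (claw, `P_t`)-free graphs is in P, for every `t`.**

There is a function `f` on instances that is computed in polynomial time (in Mathlib's model of
Turing machines with stacks, from the code of the instance as a bit string), such that `f x` is
`true` exactly when the graph of `x` has no induced claw and no induced path on `t` vertices and
`x` is a yes-instance of VERTEX STEINER TREE. -/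
theorem result (t : ℕ) (emptyOk : Bool) :
    ∃ f : VSTInstance → Bool,
      Nonempty (Turing.TM2ComputableInPolyTime VSTInstance.encode Computability.encodeBool f) ∧
      ∀ x : VSTInstance, f x = true ↔
        (¬ (completeBipartiteGraph (Fin 1) (Fin 3)).IsIndContained x.G ∧
          ¬ (SimpleGraph.pathGraph t).IsIndContained x.G ∧ x.IsYes emptyOk) := by
  have hP : Poly (fun s : List Bool => decideD t emptyOk (parse s)) := by fun_prop
  obtain ⟨M⟩ := Poly.tm2_raw_bool hP
  refine ⟨fun x => decideD t emptyOk (parse x.encode), ⟨?_⟩, ?_⟩
  · exact
      { tm := M.tm
        inputAlphabet := M.inputAlphabet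
        outputAlphabet := M.outputAlphabet
        time := M.time
        outputsFun := fun x => M.outputsFun x.encode }
  · intro x
    simp only [parse_encode]
    exact decideD_iff t emptyOk x

end Pool.Agent.Results.MP_5be563_lc.VSTPoly
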